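import Pool.Agent.W313.HB.RatioGFinal
import Pool.Agent.W313.HB.Stm6
import Pool.Agent.W881.HB.FullE

/-!
# Weak approximation for 100% of the quadratic twists of a double cover of `ℙⁿ × ℙ¹`

Let `F = A(x) u² + B(x) u v + D(x) v²` with forms `A, B, D ∈ ℤ[x_0, ..., x_n]` of degrees `2 α`,
`α + δ`, `2 δ` and squarefree discriminant `B² - 4 A D`. For `100%` of the squarefree integers `a`,
the rational points of the rationally connected variety `w² = a F(x; u, v)` approximate the local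
points in given open sets of the coordinates `(x, (u, v))`, whenever there are such local points;
this is the case for a positive proportion of all `a`.
-/

set_option autoImplicit false

namespace Pool.Agent.Results.MP_83e36b_nt.QuadraticTwists

open Pool.Agent.W313.HB

/-- The variety `w² = a (A(x) u² + B(x) u v + D(x) v²)` has a point `(x, (u, v), w)` over the field
`K` with `w ≠ 0` and with `(x, (u, v))` in the set `Ω`. -/
def HasPoint {n : ℕ} (A B D : MvPolynomial (Fin (n + 1)) ℤ) (a : ℤ) {K : Type} [Field K]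
    (Ω : Set ((Fin (n + 1) → K) × (Fin 2 → K))) : Prop :=
  ∃ x ∈ Ω, ∃ w : K, w ≠ 0 ∧ w ^ 2 = (a : K) * (MvPolynomial.aeval x.1 A * x.2 0 ^ 2 +
    MvPolynomial.aeval x.1 B * (x.2 0 * x.2 1) + MvPolynomial.aeval x.1 D * x.2 1 ^ 2)

/-- Nonempty open sets `re` of `ℝ ^ (n + 1) × ℝ ^ 2` and `pa p` of `ℚ_p ^ (n + 1) × ℚ_p ^ 2`,
almost all of them equal to the whole space. -/
structure OpenSets (n : ℕ) where
  /-- the real set -/
  re : Set ((Fin (n + 1) → ℝ) × (Fin 2 → ℝ))
  /-- the `p`-adic sets -/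
  pa : ∀ p : Nat.Primes, Set ((Fin (n + 1) → ℚ_[(p : ℕ)]) × (Fin 2 → ℚ_[(p : ℕ)]))
  isOpen_re : IsOpen re
  isOpen_pa : ∀ p, IsOpen (pa p)
  nonempty_re : re.Nonempty
  nonempty_pa : ∀ p, (pa p).Nonempty
  finite : {p : Nat.Primes | pa p ≠ Set.univ}.Finite

/-- The squarefree integers of absolute value at most `H` for which the twist has a point over `ℝ`
and over every `ℚ_p` with coordinates in the given open sets. -/
def locallySoluble {n : ℕ} (A B D : MvPolynomial (Fin (n + 1)) ℤ) (Ω : OpenSets n) (H : ℕ) :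
    Set ℤ :=
  {a | |a| ≤ H ∧ Squarefree a ∧ HasPoint A B D a Ω.re ∧
    ∀ p : Nat.Primes, HasPoint A B D a (Ω.pa p)}

/-- The squarefree integers of absolute value at most `H` for which the twist has a rational point
with coordinates in all the given open sets. -/
def globallySoluble {n : ℕ} (A B D : MvPolynomial (Fin (n + 1)) ℤ) (Ω : OpenSets n) (H : ℕ) :
    Set ℤ :=
  {a | |a| ≤ H ∧ Squarefree a ∧ HasPoint A B D a {x : (Fin (n + 1) → ℚ) × (Fin 2 → ℚ) |
      ((fun i => (x.1 i : ℝ)), (fun i => (x.2 i : ℝ))) ∈ Ω.re ∧ ∀ p : Nat.Primes,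
      ((fun i => (x.1 i : ℚ_[(p : ℕ)])), (fun i => (x.2 i : ℚ_[(p : ℕ)]))) ∈ Ω.pa p}}

lemma fin_of {H : ℕ} {S : Set ℤ} (h : ∀ a ∈ S, |a| ≤ (H : ℤ)) : S.Finite := by
  apply (Set.finite_Icc (-(H : ℤ)) H).subset
  intro a ha
  exact Set.mem_Icc.2 (abs_le.1 (h a ha))

theorem result (n α δ : ℕ) (A B D : MvPolynomial (Fin (n + 1)) ℤ) (hA : A.IsHomogeneous (2 * α))
    (hB : B.IsHomogeneous (α + δ)) (hD : D.IsHomogeneous (2 * δ)) (hαδ : 1 ≤ α + δ)
    (hsq : Squarefree (MvPolynomial.map (Int.castRingHom ℚ) (B ^ 2 - 4 * A * D)))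
    (Ω : OpenSets n) :
    (∃ c : ℝ, 0 < c ∧ ∀ᶠ H : ℕ in Filter.atTop,
      c * (H : ℝ) ≤ ((locallySoluble A B D Ω H).ncard : ℝ)) ∧
    Filter.Tendsto (fun H : ℕ => ((globallySoluble A B D Ω H).ncard : ℝ) /
      ((locallySoluble A B D Ω H).ncard : ℝ)) Filter.atTop (nhds 1) := by
  have f1 : ∀ H : ℕ, (locallySoluble A B D Ω H).Finite := fun H => fin_of fun a ha => ha.1
  have f2 : ∀ H : ℕ, (globallySoluble A B D Ω H).Finite := fun H => fin_of fun a ha => ha.1
  have h := Pool.Agent.W881.HB.fullw_ t1g' done' elsbg' xapp' n α δ A B D hA hB hD hαδ hsq Ω.re Ω.pa Ω.isOpen_re Ω.isOpen_pa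
    Ω.finite Ω.nonempty_re Ω.nonempty_pa (fun H => (f1 H).toFinset) (fun H => (f2 H).toFinset)
    (by
      intro H a
      rw [Set.Finite.mem_toFinset, Finset.mem_Icc, ← abs_le]
      exact Iff.rfl)
    (by
      intro H a
      rw [Set.Finite.mem_toFinset, Finset.mem_Icc, ← abs_le]
      exact Iff.rfl)
  obtain ⟨⟨c, hc, H0, h1⟩, h2⟩ := h
  refine ⟨⟨c, hc, ?_⟩, ?_⟩
  · filter_upwards [Filter.eventually_ge_atTop H0] with H hH
    rw [Set.ncard_eq_toFinset_card _ (f1 H)]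
    exact h1 H hH
  · refine h2.congr fun H => ?_
    rw [Set.ncard_eq_toFinset_card _ (f1 H), Set.ncard_eq_toFinset_card _ (f2 H)]

end Pool.Agent.Results.MP_83e36b_nt.QuadraticTwists
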